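import Pool.Agent.H252.EL.Iface

/-!
# Simplicity of the limit algebra
-/

set_option autoImplicit false
set_option linter.unusedSectionVars false

noncomputable section

namespace Pool.Agent.H603.ELSIMPLE

open Filter Topology Matrix
open scoped ENNReal NNReal Matrix.Norms.L2Operator
open Pool.Agent.H188R3 (IsLim norm_map_inj norm_map_le')
open Pool.Agent.H252.EL

/-! ### Vectors in the blocks -/

/-- the vector `ξ` in the block `s` -/
def pl {n S : ℕ} (s : Fin S) (ξ : Fin n → ℂ) : Fin (n * S) → ℂ := fun x =>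
  if (finProdFinEquiv.symm x).2 = s then ξ (finProdFinEquiv.symm x).1 else 0

lemma pl_apply {n S : ℕ} (s t : Fin S) (ξ : Fin n → ℂ) (a : Fin n) :
    pl s ξ (finProdFinEquiv (a, t)) = if t = s then ξ a else 0 := by
  simp [pl]

lemma pl_mul {Z : Type} [TopologicalSpace Z] [CompactSpace Z] {n S : ℕ} (l : Fin S → Z) (f : Z → Matrix (Fin n) (Fin n) ℂ) (s : Fin S)
    (ξ : Fin n → ℂ) : dgv l f *ᵥ pl s ξ = pl s (f (l s) *ᵥ ξ) := by
  ext x
  obtain ⟨⟨a, t⟩, rfl⟩ := finProdFinEquiv.surjective x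
  rw [pl_apply, Matrix.mulVec, dotProduct, ← finProdFinEquiv.sum_comp, Fintype.sum_prod_type]
  simp only [dgv_apply, pl_apply]
  split_ifs with h
  · subst h
    simp only [Matrix.mulVec, dotProduct]
    refine Finset.sum_congr rfl fun b _ => ?_
    rw [Finset.sum_eq_single t]
    · simp
    · intro u _ hu
      rw [if_neg hu, mul_zero]
    · intro h; exact absurd (Finset.mem_univ _) h
  · refine Finset.sum_eq_zero fun b _ => Finset.sum_eq_zero fun u _ => ?_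
    by_cases h1 : t = u
    · subst h1
      rw [if_neg h, mul_zero]
    · rw [if_neg h1, zero_mul]

lemma pl_nsq {n S : ℕ} (s : Fin S) (ξ : Fin n → ℂ) :
    star (pl s ξ) ⬝ᵥ pl s ξ = star ξ ⬝ᵥ ξ := by
  rw [dotProduct, dotProduct, ← finProdFinEquiv.sum_comp, Fintype.sum_prod_type]
  refine Finset.sum_congr rfl fun b _ => ?_
  simp only [Pi.star_apply, pl_apply]
  rw [Finset.sum_eq_single s]
  · simp
  · intro u _ hu
    rw [if_neg hu, mul_zero]
  · intro h; exact absurd (Finset.mem_univ _) h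

lemma sum_col {J : Type} [Fintype J] [DecidableEq J] (v : J → ℂ) :
    ∑ t, star (Matrix.vecMulVec v (Pi.single t (1 : ℂ))) * Matrix.vecMulVec v (Pi.single t 1) =
      (star v ⬝ᵥ v) • (1 : Matrix J J ℂ) := by
  ext a c
  rw [Matrix.sum_apply]
  have h : ∀ t, (star (Matrix.vecMulVec v (Pi.single t (1 : ℂ))) *
      Matrix.vecMulVec v (Pi.single t 1)) a c =
      if t = a then (if t = c then star v ⬝ᵥ v else 0) else 0 := by
    intro t
    rw [Matrix.mul_apply]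
    simp only [Matrix.star_apply, Matrix.vecMulVec_apply, Pi.single_apply]
    by_cases h1 : t = a
    · by_cases h2 : t = c
      · subst h1; subst h2
        simp [dotProduct]
      · rw [if_pos h1, if_neg h2]
        refine Finset.sum_eq_zero fun x _ => ?_
        rw [if_neg (Ne.symm h2)]
        ring
    · rw [if_neg h1]
      refine Finset.sum_eq_zero fun x _ => ?_
      rw [if_neg (Ne.symm h1)]
      simp
  rw [Finset.sum_congr rfl fun t _ => h t]
  simp [Matrix.one_apply]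


lemma nsq_eq {n : ℕ} (x : EuclideanSpace ℂ (Fin n)) :
    star (x.ofLp) ⬝ᵥ x.ofLp = ((‖x‖ ^ 2 : ℝ) : ℂ) := by
  rw [EuclideanSpace.norm_sq_eq, dotProduct]
  push_cast
  refine Finset.sum_congr rfl fun i _ => ?_
  rw [Pi.star_apply, Complex.star_def, mul_comm, Complex.mul_conj, Complex.normSq_eq_norm_sq]
  push_cast
  rfl

lemma exists_vec {n : ℕ} (A : Matrix (Fin n) (Fin n) ℂ) (c : ℝ) (hc : 0 ≤ c) (h : c < ‖A‖) :
    ∃ (ξ : Fin n → ℂ) (b a : ℝ), 0 ≤ b ∧ b ≤ 1 ∧ c ^ 2 ≤ a ∧ star ξ ⬝ᵥ ξ = (b : ℂ) ∧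
      star (A *ᵥ ξ) ⬝ᵥ (A *ᵥ ξ) = (a : ℂ) := by
  rw [Matrix.l2_opNorm_def] at h
  obtain ⟨x, hx1, hx2⟩ := ContinuousLinearMap.exists_lt_apply_of_lt_opNorm _ h
  refine ⟨x.ofLp, ‖x‖ ^ 2, _, by positivity, ?_, ?_, nsq_eq x, nsq_eq (WithLp.toLp 2 (A *ᵥ x.ofLp))⟩
  · exact pow_le_one₀ (norm_nonneg _) hx1.le
  · exact pow_le_pow_left₀ hc hx2.le 2


/-! ### The system -/

variable (D : Sys)

/-- columns, constant on the two components -/
def col (k : ℕ) (σ : Bool → Fin (D.S k)) (ξ : Fin (D.n k) → ℂ) (t : Fin (D.n (k + 1))) :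
    D.A (k + 1) :=
  ⟨fun z => Matrix.vecMulVec (pl (σ z.1) ξ) (Pi.single t 1), by
    refine continuous_sigma fun b' => ?_
    change Continuous fun _ : Cb (D.d (k + 1) b') =>
      (Matrix.vecMulVec (pl (σ b') ξ) (Pi.single t 1) : Matrix (Fin (D.n (k + 1))) (Fin (D.n (k + 1))) ℂ)
    exact continuous_const⟩

lemma col_apply (k : ℕ) (σ : Bool → Fin (D.S k)) (ξ : Fin (D.n k) → ℂ) (t : Fin (D.n (k + 1)))
    (z : D.Z (k + 1)) : col D k σ ξ t z = Matrix.vecMulVec (pl (σ z.1) ξ) (Pi.single t 1) := rfl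

lemma l_low (k : ℕ) (s : Fin (D.S k)) (h : (s : ℕ) < D.m k) (b : Bool) (w : Cb (D.d (k + 1) b)) :
    D.l k s ⟨b, w⟩ = ⟨b, pj (e := D.e k b) ⟨s, h⟩ w⟩ := by
  unfold Sys.l lam
  rw [dif_pos h]
  rfl

lemma l_mid (k : ℕ) (s : Fin (D.S k)) (h1 : ¬ (s : ℕ) < D.m k) (h2 : (s : ℕ) < D.S k - D.c k)
    (z : D.Z (k + 1)) : D.l k s z = ⟨z.1, D.q k z.1⟩ := by
  unfold Sys.l lam
  rw [dif_neg h1, if_pos h2]
  rfl

lemma l_high (k : ℕ) (s : Fin (D.S k)) (h1 : ¬ (s : ℕ) < D.m k) (h2 : ¬ (s : ℕ) < D.S k - D.c k)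
    (z : D.Z (k + 1)) : D.l k s z = ⟨!z.1, D.q k (!z.1)⟩ := by
  unfold Sys.l lam
  rw [dif_neg h1, if_neg h2]
  rfl

lemma chain (hm : ∀ l, D.m l ≤ D.S l) (i : ℕ) (f : D.A i) (b : Bool) (p : ∀ l : ℕ, Cb (D.d l b))
    (ξ : Fin (D.n i) → ℂ) (r : ℕ)
    (hp : ∀ l, i ≤ l → l < i + r → ∃ s : Fin (D.m l), p l = pj (e := D.e l b) s (p (l + 1))) :
    ∃ ξ' : Fin (D.n (i + r)) → ℂ, star ξ' ⬝ᵥ ξ' = star ξ ⬝ᵥ ξ ∧
      star (D.tr i r f ⟨b, p (i + r)⟩ *ᵥ ξ') ⬝ᵥ (D.tr i r f ⟨b, p (i + r)⟩ *ᵥ ξ') =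
        star (f ⟨b, p i⟩ *ᵥ ξ) ⬝ᵥ (f ⟨b, p i⟩ *ᵥ ξ) := by
  induction r with
  | zero => exact ⟨ξ, rfl, rfl⟩
  | succ r ih =>
    obtain ⟨ξ', h1, h2⟩ := ih fun l hl1 hl2 => hp l hl1 (by omega)
    obtain ⟨s, hs⟩ := hp (i + r) (by omega) (by omega)
    have hs' : (s : ℕ) < D.S (i + r) := lt_of_lt_of_le s.2 (hm _)
    refine ⟨pl (⟨s, hs'⟩ : Fin (D.S (i + r))) ξ', ?_, ?_⟩
    · rw [← h1]
      exact pl_nsq _ _
    · have h3 : D.l (i + r) ⟨s, hs'⟩ ⟨b, p (i + r + 1)⟩ = ⟨b, p (i + r)⟩ := by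
        rw [l_low D (i + r) ⟨s, hs'⟩ s.2 b (p (i + r + 1)), hs]
      have h4 : D.tr i (r + 1) f ⟨b, p (i + (r + 1))⟩ *ᵥ pl (⟨s, hs'⟩ : Fin (D.S (i + r))) ξ' =
          pl (⟨s, hs'⟩ : Fin (D.S (i + r))) (D.tr i r f ⟨b, p (i + r)⟩ *ᵥ ξ') := by
        rw [← h3]
        exact pl_mul (fun s => D.l (i + r) s ⟨b, p (i + r + 1)⟩) (D.tr i r f) ⟨s, hs'⟩ ξ'
      rw [← h2, h4]
      exact pl_nsq _ _

/-- the columns -/
lemma full (hD : D.Good) (k : ℕ) (f : D.A k) (b : Bool) (ξ : Fin (D.n k) → ℂ) (β a : ℝ)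
    (h1 : star ξ ⬝ᵥ ξ = (β : ℂ))
    (h2 : star (f ⟨b, D.q k b⟩ *ᵥ ξ) ⬝ᵥ (f ⟨b, D.q k b⟩ *ᵥ ξ) = (a : ℂ)) :
    ∃ (ι : Type) (_ : Fintype ι) (x : ι → D.A (k + 1)), ∑ t, star (x t) * x t = (β : ℂ) • 1 ∧
      ∑ t, star (D.φ k f * x t) * (D.φ k f * x t) = (a : ℂ) • 1 := by
  have hlt := hD.lt k
  have hc := hD.c_pos k
  let σ : Bool → Fin (D.S k) := fun b' =>
    if b' = b then ⟨D.m k, by omega⟩ else ⟨D.S k - 1, by omega⟩
  have hσ : ∀ z : D.Z (k + 1), D.l k (σ z.1) z = ⟨b, D.q k b⟩ := by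
    rintro ⟨b', w⟩
    by_cases hb : b' = b
    · subst hb
      have : σ b' = ⟨D.m k, by omega⟩ := if_pos rfl
      show D.l k (σ b') _ = _
      rw [this, l_mid D k _ (by simp) (by show D.m k < _; omega)]
    · have : σ b' = ⟨D.S k - 1, by omega⟩ := if_neg hb
      show D.l k (σ b') _ = _
      rw [this, l_high D k _ (by show ¬ (D.S k - 1 < D.m k); omega)
        (by show ¬ (D.S k - 1 < D.S k - D.c k); omega)]
      have hb2 : (!b') = b := by
        cases b' <;> cases b <;> simp_all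
      show (⟨!b', D.q k (!b')⟩ : D.Z k) = _
      rw [hb2]
  refine ⟨Fin (D.n (k + 1)), inferInstance, col D k σ ξ, ?_, ?_⟩
  · ext1 z
    rw [ContinuousMap.sum_apply]
    have h3 := sum_col (pl (σ z.1) ξ)
    rw [pl_nsq, h1] at h3
    exact h3
  · ext1 z
    rw [ContinuousMap.sum_apply]
    have h3 := sum_col (pl (σ z.1) (f ⟨b, D.q k b⟩ *ᵥ ξ))
    rw [pl_nsq, h2] at h3
    rw [ContinuousMap.smul_apply, ContinuousMap.one_apply]
    refine Eq.trans (Finset.sum_congr rfl fun t _ => ?_) h3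
    have h4 : (D.φ k f * col D k σ ξ t) z =
        Matrix.vecMulVec (pl (σ z.1) (f ⟨b, D.q k b⟩ *ᵥ ξ)) (Pi.single t 1) := by
      have h5 := pl_mul (fun s => D.l k s z) f (σ z.1) ξ
      have h6 : f (D.l k (σ z.1) z) = f ⟨b, D.q k b⟩ := by rw [hσ]
      rw [h6] at h5
      rw [← h5]
      exact Matrix.mul_vecMulVec (dgv (fun s => D.l k s z) f) (pl (σ z.1) ξ) (Pi.single t 1)
    rw [ContinuousMap.mul_apply, ContinuousMap.star_apply, h4]
    rfl


/-! ### Perturbation in a C*-algebra -/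

section pert

variable {L : Type} [CStarAlgebra L]

lemma pert (y F : L) (ρ : ℝ) (hρ0 : 0 < ρ) (hdn : ‖y - F‖ < ρ / 8) {ι : Type} [Fintype ι]
    (X : ι → L) (b a : ℝ) (hb1 : b ≤ 1) (ha : (ρ / 2) ^ 2 ≤ a)
    (hX1 : ∑ k, star (X k) * X k = (b : ℂ) • 1)
    (hX2 : ∑ k, star (F * X k) * (F * X k) = (a : ℂ) • 1) :
    ∃ q : L, ∑ k, star (y * X k) * (y * X k) = ((ρ ^ 2 / 16 : ℝ) : ℂ) • 1 + star q * q := by
  let _ : PartialOrder L := CStarAlgebra.spectralOrder L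
  let _ : StarOrderedRing L := CStarAlgebra.spectralOrderedRing L
  set d : L := y - F with hd
  -- the decomposition
  have key : ∀ u v : L, star u * u = (1 / 2 : ℂ) • (star (u - v) * (u - v)) - star v * v +
      (1 / 2 : ℂ) • (star (u + v) * (u + v)) := by
    intro u v
    have e1 : star (u - v) * (u - v) + star (u + v) * (u + v) =
        (2 : ℂ) • (star u * u) + (2 : ℂ) • (star v * v) := by
      rw [star_sub, star_add, two_smul, two_smul]; noncomm_ring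
    have e2 : (1 / 2 : ℂ) • (star (u - v) * (u - v)) + (1 / 2 : ℂ) • (star (u + v) * (u + v)) =
        star u * u + star v * v := by
      rw [← smul_add, e1, smul_add, smul_smul, smul_smul]; norm_num
    have : (1 / 2 : ℂ) • (star (u - v) * (u - v)) - star v * v +
      (1 / 2 : ℂ) • (star (u + v) * (u + v)) = ((1 / 2 : ℂ) • (star (u - v) * (u - v)) +
      (1 / 2 : ℂ) • (star (u + v) * (u + v))) - star v * v := by abel
    rw [this, e2]; abel
  have hsum : ∑ k, star (y * X k) * (y * X k) = ((a / 2 : ℝ) : ℂ) • 1 -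
      ∑ k, star (d * X k) * (d * X k) +
      (1 / 2 : ℂ) • ∑ k, star (y * X k + d * X k) * (y * X k + d * X k) := by
    have h2 : ∀ k, star (y * X k) * (y * X k) = (1 / 2 : ℂ) • (star (F * X k) * (F * X k)) -
        star (d * X k) * (d * X k) +
        (1 / 2 : ℂ) • (star (y * X k + d * X k) * (y * X k + d * X k)) := by
      intro k
      have h3 : y * X k - d * X k = F * X k := by rw [hd, sub_mul]; abel
      conv_lhs => rw [key (y * X k) (d * X k), h3]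
    rw [Finset.sum_congr rfl fun k _ => h2 k, Finset.sum_add_distrib, Finset.sum_sub_distrib,
      ← Finset.smul_sum, ← Finset.smul_sum, hX2, smul_smul]
    congr 3
    push_cast; ring
  have hdle : ∑ k, star (d * X k) * (d * X k) ≤ (ρ ^ 2 / 64 : ℝ) • (1 : L) := by
    have h2 : ∀ k, star (d * X k) * (d * X k) ≤ ‖d‖ ^ 2 • (star (X k) * X k) := by
      intro k
      have h3 : star (d * X k) * (d * X k) = star (X k) * (star d * d) * X k := by
        rw [star_mul]; noncomm_ring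
      have h4 : ‖star d * d‖ = ‖d‖ ^ 2 := by rw [CStarRing.norm_star_mul_self, sq]
      rw [h3, ← h4]
      exact CStarAlgebra.star_left_conjugate_le_norm_smul (IsSelfAdjoint.star_mul_self d)
    refine (Finset.sum_le_sum fun k _ => h2 k).trans ?_
    rw [← Finset.smul_sum, hX1, Complex.coe_smul, smul_smul]
    refine smul_le_smul_of_nonneg_right ?_ zero_le_one
    nlinarith [norm_nonneg d]
  have hge : (0 : L) ≤ ∑ k, star (y * X k) * (y * X k) - ((ρ ^ 2 / 16 : ℝ) : ℂ) • (1 : L) := by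
    rw [hsum]
    have h2 : (0 : L) ≤ (1 / 2 : ℂ) • ∑ k, star (y * X k + d * X k) * (y * X k + d * X k) := by
      have h3 : (1 / 2 : ℂ) = ((1 / 2 : ℝ) : ℂ) := by push_cast; rfl
      rw [h3, Complex.coe_smul]
      exact smul_nonneg (by norm_num) (Finset.sum_nonneg fun k _ => star_mul_self_nonneg _)
    have h3 : ((ρ ^ 2 / 16 : ℝ) : ℂ) • (1 : L) + (ρ ^ 2 / 64 : ℝ) • (1 : L) ≤
        ((a / 2 : ℝ) : ℂ) • 1 := by
      rw [Complex.coe_smul, Complex.coe_smul, ← add_smul]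
      refine smul_le_smul_of_nonneg_right ?_ zero_le_one
      nlinarith
    have h4 : ((a / 2 : ℝ) : ℂ) • (1 : L) - ∑ k, star (d * X k) * (d * X k) +
        (1 / 2 : ℂ) • ∑ k, star (y * X k + d * X k) * (y * X k + d * X k) -
          ((ρ ^ 2 / 16 : ℝ) : ℂ) • (1 : L) =
        (((a / 2 : ℝ) : ℂ) • (1 : L) - (((ρ ^ 2 / 16 : ℝ) : ℂ) • (1 : L) +
          (ρ ^ 2 / 64 : ℝ) • (1 : L))) +
        ((ρ ^ 2 / 64 : ℝ) • (1 : L) - ∑ k, star (d * X k) * (d * X k)) +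
        (1 / 2 : ℂ) • ∑ k, star (y * X k + d * X k) * (y * X k + d * X k) := by abel
    rw [h4]
    exact add_nonneg (add_nonneg (sub_nonneg.2 h3) (sub_nonneg.2 hdle)) h2
  obtain ⟨q', hq'⟩ := (CStarAlgebra.nonneg_iff_eq_star_mul_self).1 hge
  refine ⟨q', ?_⟩
  rw [← hq']; abel

lemma isUnit_of_sum (a : ℝ) (ha : 0 < a) (q : L) : IsUnit ((a : ℂ) • (1 : L) + star q * q) := by
  let _ : PartialOrder L := CStarAlgebra.spectralOrder L
  let _ : StarOrderedRing L := CStarAlgebra.spectralOrderedRing L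
  have h1 : IsStrictlyPositive ((a : ℂ) • (1 : L)) := by
    rw [Complex.coe_smul]
    exact IsStrictlyPositive.smul ha isStrictlyPositive_one
  refine CStarAlgebra.isUnit_of_le ((a : ℂ) • (1 : L)) ?_ h1
  exact le_add_of_nonneg_right (star_mul_self_nonneg q)

end pert

/-- every nonzero element generates the unit ideal -/
lemma full_L (hD : D.Good) (hdn : D.Dns) {L : Type} [CStarAlgebra L] {j : ∀ i, D.A i →⋆ₐ[ℂ] L}
    (hL : IsLim D.φ j) (y : L) (hy : y ≠ 0) :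
    ∃ (ι : Type) (_ : Fintype ι) (x : ι → L) (a : ℝ) (q : L), 0 < a ∧
      ∑ k, star (y * x k) * (y * x k) = (a : ℂ) • 1 + star q * q := by
  set ρ : ℝ := ‖y‖ with hρ
  have hρ0 : 0 < ρ := norm_pos_iff.2 hy
  obtain ⟨i, f, hf⟩ := hL.dense y (ρ / 8) (by positivity)
  have hfn : ρ / 2 < ‖f‖ := by
    rw [← norm_map_inj (j i) (hL.inj i) f]
    have : ‖y‖ ≤ ‖y - j i f‖ + ‖j i f‖ := by
      calc ‖y‖ = ‖(y - j i f) + j i f‖ := by rw [sub_add_cancel]
        _ ≤ _ := norm_add_le _ _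
    linarith
  obtain ⟨z, hz⟩ : ∃ z, ρ / 2 < ‖f z‖ := by
    by_contra hcon
    push Not at hcon
    exact absurd ((ContinuousMap.norm_le f (by positivity)).2 hcon) (not_le.2 hfn)
  obtain ⟨b, y₀⟩ := z
  have hc : Continuous fun y' : Cb (D.d i b) => ‖f ⟨b, y'⟩‖ :=
    (f.continuous.comp continuous_sigmaMk).norm
  obtain ⟨k, p, hik, hpk, hpi, hch⟩ := hdn i b {y' | ρ / 2 < ‖f ⟨b, y'⟩‖}
    (isOpen_lt continuous_const hc) ⟨y₀, hz⟩
  obtain ⟨r, rfl⟩ := Nat.exists_eq_add_of_le hik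
  obtain ⟨ξ, β, a, hβ0, hβ1, ha, h1, h2⟩ := exists_vec (f ⟨b, p i⟩) (ρ / 2) (by positivity) hpi
  have hm : ∀ l, D.m l ≤ D.S l := fun l => by have := hD.lt l; omega
  obtain ⟨ξ', h3, h4⟩ := chain D hm i f b p ξ r hch
  rw [h1] at h3
  rw [h2, hpk] at h4
  obtain ⟨ι, hι, x, hx1, hx2⟩ := full D hD (i + r) (D.tr i r f) b ξ' β a h3 h4
  have hj : ∀ r, j (i + r) (D.tr i r f) = j i f := by
    intro r
    induction r with
    | zero => rfl
    | succ r ih =>
      rw [← ih]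
      exact hL.comp (i + r) (D.tr i r f)
  have hF : j i f = j (i + r + 1) (D.φ (i + r) (D.tr i r f)) := by rw [hL.comp, hj]
  have hX1 : ∑ t, star (j (i + r + 1) (x t)) * j (i + r + 1) (x t) = (β : ℂ) • 1 := by
    have := congrArg (j (i + r + 1)) hx1
    rw [map_sum, map_smul, map_one] at this
    rw [← this]
    refine Finset.sum_congr rfl fun k _ => ?_
    rw [map_mul, map_star]
  have hX2 : ∑ t, star (j i f * j (i + r + 1) (x t)) * (j i f * j (i + r + 1) (x t)) =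
      (a : ℂ) • 1 := by
    have := congrArg (j (i + r + 1)) hx2
    rw [map_sum, map_smul, map_one] at this
    rw [← this]
    refine Finset.sum_congr rfl fun k _ => ?_
    rw [hF, map_mul, map_star, map_mul]
  obtain ⟨q, hq⟩ := pert y (j i f) ρ hρ0 hf (fun t => j (i + r + 1) (x t)) β a hβ1 ha hX1 hX2
  exact ⟨ι, hι, _, _, q, by positivity, hq⟩

theorem s_SIMPLE : Pool.Agent.H252.EL.S_SIMPLE := by
  intro D hD hdn L _ j hL
  have hnt0 : Nontrivial (D.A 0) := by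
    refine ⟨⟨0, 1, ?_⟩⟩
    intro h
    have h1 := congrArg (fun g : D.A 0 => g ⟨true, fun _ => 0⟩ (0 : Fin 1) (0 : Fin 1)) h
    exact zero_ne_one (α := ℂ) h1
  have hnt : Nontrivial L := (hL.inj 0).nontrivial
  apply IsSimpleRing.of_eq_bot_or_eq_top
  intro I
  by_cases hI : ∀ x ∈ I, x = 0
  · left
    exact le_bot_iff.mp fun x hx => by
      rw [hI x hx]
      exact TwoSidedIdeal.zero_mem _
  · right
    push Not at hI
    obtain ⟨y, hy, hy0⟩ := hI
    obtain ⟨ι, _, x, a, q, ha, hs⟩ := full_L D hD hdn hL y hy0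
    have h1 : (a : ℂ) • (1 : L) + star q * q ∈ I := by
      rw [← hs]
      refine sum_mem fun k _ => ?_
      exact I.mul_mem_left _ _ (I.mul_mem_right _ _ hy)
    have h2 : (1 : L) ∈ I := by
      obtain ⟨u, hu⟩ := isUnit_of_sum a ha q
      have h3 := I.mul_mem_left (↑u⁻¹) _ h1
      rw [← hu, Units.inv_mul] at h3
      exact h3
    refine top_le_iff.mp fun y _ => ?_
    have := I.mul_mem_left y 1 h2
    rwa [mul_one] at this

end Pool.Agent.H603.ELSIMPLE
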