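import Pool.Agent.H283.HT.Stm

set_option autoImplicit false

namespace Pool.Agent.H603.HTBOTH

open Pool.Agent.H283.HT

lemma neg_notMem {K : Set P3} (hK : Body K) {p : P2} (h : p ∉ interior (Sh K)) :
    -p ∉ interior (Sh K) := by
  intro hp
  apply h
  have hs : (Homeomorph.neg P2) ⁻¹' (Sh K) = Sh K := by
    ext x
    constructor
    · rintro ⟨y, hy, hyx⟩
      refine ⟨R y, hK.sym y hy, ?_⟩
      have hyx' : y.1 = -x := hyx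
      show -y.1 = x
      rw [hyx', neg_neg]
    · rintro ⟨y, hy, hyx⟩
      refine ⟨R y, hK.sym y hy, ?_⟩
      have hyx' : y.1 = x := hyx
      show -y.1 = -x
      rw [hyx']
  have h2 := (Homeomorph.neg P2).preimage_interior (Sh K)
  rw [hs] at h2
  rw [← h2]
  exact hp

theorem BOTH_done (hRC : S_RC) (hMIR : S_MIR) (hFULL : S_FULL) (hW : S_W) (hHORB : S_HORB)
    (hHORA : S_HORA) : S_BOTH := by
  intro K hK p₀ p₁ hp₀ hp₁ h₀ h₁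
  obtain ⟨hM1, hM2, hM3, hM4, hM5⟩ := hMIR K hK
  have hMz : ∀ p : P2, ((p, (1 : ℝ)) : P3) ∈ Mz '' K ↔ ((p, (-1 : ℝ)) : P3) ∈ K := by
    intro p
    rw [← hM5 (p, (-1 : ℝ))]
    have e : Mz (p, (-1 : ℝ)) = (p, (1 : ℝ)) := by
      show (p, -(-1 : ℝ)) = (p, (1 : ℝ))
      rw [neg_neg]
    rw [e]
  by_cases hA : ∀ p ∈ Sh K, ((p, (1 : ℝ)) : P3) ∈ K
  · exact hFULL K hK hA
  by_cases hB : ∀ p ∈ Sh K, ((p, (-1 : ℝ)) : P3) ∈ K
  · apply hM4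
    apply hFULL (Mz '' K) hM1
    intro p hp
    rw [hM2] at hp
    exact (hMz p).2 (hB p hp)
  push Not at hA hB
  obtain ⟨w₁, κ₁, hκ₁, hw₁⟩ := hW K hK p₀ hp₀ h₀ hA
  obtain ⟨w₂, κ₂, hκ₂, hw₂⟩ := hW (Mz '' K) hM1 p₁ ((hMz p₁).2 hp₁) (by rw [hM2]; exact h₁) (by
    obtain ⟨p, hp, hp'⟩ := hB
    exact ⟨p, by rw [hM2]; exact hp, fun h => hp' ((hMz p).1 h)⟩)
  have hww : ∃ w w' : P2, ∀ x ∈ K, -1 < x.2 → x.2 < 1 → HorLit K w w' x := by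
    by_cases hC : (1 / 2 : ℝ) • (p₀ + p₁) ∈ interior (Sh K)
    · by_cases hD : (1 / 2 : ℝ) • (p₀ - p₁) ∈ interior (Sh K)
      · exact hHORB K hK p₀ p₁ hp₀ hp₁ h₀ h₁ hC hD
      · have h2 : ((-p₁, (-1 : ℝ)) : P3) ∈ K := hK.sym _ hp₁
        exact hHORA K hK p₀ (-p₁) hp₀ h2 h₀ (neg_notMem hK h₁) (by
          rw [← sub_eq_add_neg]; exact hD)
    · exact hHORA K hK p₀ p₁ hp₀ hp₁ h₀ h₁ hC
  obtain ⟨w, w', hH⟩ := hww
  classical
  obtain ⟨-, hRC2, -, -⟩ := hRC K hK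
  -- the points of height one
  have htop : ∀ x ∈ K, x.2 = 1 → ((w₁, -κ₁) : P3) ∈ C K x ∨ ((-w₁, -κ₁) : P3) ∈ C K x := by
    intro x hx hx2
    have e : x = (x.1, (1 : ℝ)) := by rw [← hx2]
    rw [e] at hx ⊢
    exact hw₁ x.1 hx
  have hbot : ∀ x ∈ K, x.2 = -1 → ((w₂, κ₂) : P3) ∈ C K x ∨ ((-w₂, κ₂) : P3) ∈ C K x := by
    intro x hx hx2
    have e : x = (x.1, (-1 : ℝ)) := by rw [← hx2]
    rw [e] at hx ⊢
    have e1 : Mz (x.1, (-1 : ℝ)) = (x.1, (1 : ℝ)) := by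
      show (x.1, -(-1 : ℝ)) = (x.1, (1 : ℝ))
      rw [neg_neg]
    rcases hw₂ x.1 ((hMz x.1).2 hx) with h | h
    · left
      apply hM3
      rw [e1]
      exact h
    · right
      apply hM3
      rw [e1]
      exact h
  refine ⟨[((w₁, -κ₁) : P3), (-w₁, -κ₁), (w₂, κ₂), (-w₂, κ₂), (w, 0), (-w, 0), (w', 0),
    (-w', 0)].toFinset, ?_, ?_⟩
  · exact List.toFinset_card_le _
  · intro x hx
    rcases (hK.le x hx).lt_or_eq with hlt | heq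
    · rcases (hK.ge x hx).lt_or_eq with hgt | heq'
      · rcases hH x hx hgt hlt with (h | h | h | h) | ⟨x₀, hx₀, hx₀2, x₁, hx₁, l, hl0, hl1, rfl⟩
        · exact ⟨_, by simp, h⟩
        · exact ⟨(-w, 0), by simp, h⟩
        · exact ⟨(w', 0), by simp, h⟩
        · exact ⟨(-w', 0), by simp, h⟩
        · rcases htop x₀ hx₀ hx₀2 with h | h
          · exact ⟨(w₁, -κ₁), by simp, hRC2 x₀ x₁ _ l hl0 hl1 hx₁ h⟩
          · exact ⟨(-w₁, -κ₁), by simp, hRC2 x₀ x₁ _ l hl0 hl1 hx₁ h⟩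
      · rcases hbot x hx heq'.symm with h | h
        · exact ⟨(w₂, κ₂), by simp, h⟩
        · exact ⟨(-w₂, κ₂), by simp, h⟩
    · rcases htop x hx heq with h | h
      · exact ⟨(w₁, -κ₁), by simp, h⟩
      · exact ⟨(-w₁, -κ₁), by simp, h⟩

end Pool.Agent.H603.HTBOTH
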