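import Mathlib
import Pool.Agent.H316.EM.Stm2

set_option autoImplicit false

namespace Pool.Agent.H603

open Pool.Agent.H316.EM

namespace EMNIL

variable {E A : Type} [CommRing E] [CommGroup A]

/-- the elements with `u a ≡ 1` modulo `J` -/
def Kg (u : A →* Eˣ) (J : Ideal E) : Subgroup A where
  carrier := {a | (u a : E) - 1 ∈ J}
  one_mem' := by simp
  mul_mem' := by
    intro a b ha hb
    show ((u (a * b) : Eˣ) : E) - 1 ∈ J
    have : ((u (a * b) : Eˣ) : E) - 1 = (u a : E) * ((u b : E) - 1) + ((u a : E) - 1) := by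
      rw [map_mul, Units.val_mul]; ring
    rw [this]
    exact J.add_mem (J.mul_mem_left _ hb) ha
  inv_mem' := by
    intro a ha
    show ((u a⁻¹ : Eˣ) : E) - 1 ∈ J
    have : ((u a⁻¹ : Eˣ) : E) - 1 = -((u a⁻¹ : Eˣ) : E) * ((u a : E) - 1) := by
      have h : ((u a⁻¹ : Eˣ) : E) * (u a : E) = 1 := by
        rw [← Units.val_mul, ← map_mul, inv_mul_cancel, map_one, Units.val_one]
      linear_combination h
    rw [this]
    exact J.mul_mem_left _ ha

theorem mem_Kg (u : A →* Eˣ) (J : Ideal E) (a : A) : a ∈ Kg u J ↔ (u a : E) - 1 ∈ J := Iff.rfl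

theorem fin1 [IsNoetherianRing E] (h2 : ∀ a : A, a * a = 1) (u : A →* Eˣ) :
    (Kg u (nilradical E)).index ≠ 0 := by
  classical
  have hpm : ∀ (a : A) (q : Ideal E), q.IsPrime → (u a : E) - 1 ∈ q ∨ (u a : E) + 1 ∈ q := by
    intro a q hq
    apply hq.mem_or_mem
    have h : (u a : E) * (u a : E) = 1 := by
      rw [← Units.val_mul, ← map_mul, h2, map_one, Units.val_one]
    have : ((u a : E) - 1) * ((u a : E) + 1) = 0 := by linear_combination h
    rw [this]; exact q.zero_mem
  have hfin : Finite (minimalPrimes E) :=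
    (minimalPrimes.finite_of_isNoetherianRing E).to_subtype
  let F : A → (minimalPrimes E → Prop) := fun a q => (u a : E) - 1 ∈ q.1
  have hF : ∀ a b : A, F a = F b → a⁻¹ * b ∈ Kg u (nilradical E) := by
    intro a b hab
    rw [mem_Kg]
    have key : (u b : E) - (u a : E) ∈ nilradical E := by
      rw [nilradical, ← Ideal.sInf_minimalPrimes, Ideal.mem_sInf]
      intro q hq
      have hqp : q.IsPrime := hq.1.1
      have h1 : ((u a : E) - 1 ∈ q) = ((u b : E) - 1 ∈ q) := congrFun hab ⟨q, hq⟩
      by_cases ha : (u a : E) - 1 ∈ q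
      · have hb : (u b : E) - 1 ∈ q := h1 ▸ ha
        have := q.sub_mem hb ha
        convert this using 1; ring
      · have hb : (u b : E) - 1 ∉ q := fun h => ha (h1 ▸ h)
        have ha' := (hpm a q hqp).resolve_left ha
        have hb' := (hpm b q hqp).resolve_left hb
        have := q.sub_mem hb' ha'
        convert this using 1; ring
    have : ((u (a⁻¹ * b) : Eˣ) : E) - 1 = ((u a⁻¹ : Eˣ) : E) * ((u b : E) - (u a : E)) := by
      have h : ((u a⁻¹ : Eˣ) : E) * (u a : E) = 1 := by
        rw [← Units.val_mul, ← map_mul, inv_mul_cancel, map_one, Units.val_one]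
      rw [map_mul, Units.val_mul]
      linear_combination h
    rw [this]
    exact Ideal.mul_mem_left _ _ key
  have hq : Finite (A ⧸ Kg u (nilradical E)) := by
    refine Finite.of_injective (fun x : A ⧸ Kg u (nilradical E) => F x.out) ?_
    intro x y hxy
    have := hF _ _ hxy
    rw [← Quotient.out_eq' x, ← Quotient.out_eq' y]
    exact QuotientGroup.eq.2 this
  rw [Subgroup.index]
  exact (Nat.card_pos).ne'

end EMNIL

open EMNIL in
theorem em_nil : S_NIL := by
  classical
  intro E A _ _ _ h2 u hu
  obtain ⟨s, hs⟩ := IsNoetherianRing.isNilpotent_nilradical E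
  have hex : ∃ n, (Kg u (nilradical E ^ n)).index = 0 := by
    refine ⟨s, ?_⟩
    have : Kg u (nilradical E ^ s) = u.ker := by
      ext a
      rw [mem_Kg, hs, MonoidHom.mem_ker]
      constructor
      · intro h
        have h0 : (u a : E) - 1 = 0 := h
        apply Units.ext
        rw [Units.val_one]
        exact sub_eq_zero.1 h0
      · intro h
        rw [h, Units.val_one, sub_self]
        exact Ideal.zero_mem _
    rw [this]; exact hu
  have h0 : Nat.find hex ≠ 0 := by
    intro h
    have := Nat.find_spec hex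
    rw [h, pow_zero, Ideal.one_eq_top] at this
    have h3 : Kg u (⊤ : Ideal E) = ⊤ := by
      ext a; simp [mem_Kg]
    rw [h3, Subgroup.index_top] at this
    exact one_ne_zero this
  have h1 : Nat.find hex ≠ 1 := by
    intro h
    have := Nat.find_spec hex
    rw [h, pow_one] at this
    exact fin1 h2 u this
  obtain ⟨j, hj⟩ : ∃ j, Nat.find hex = j + 1 := ⟨Nat.find hex - 1, by omega⟩
  refine ⟨j, by omega, Kg u (nilradical E ^ j), Kg u (nilradical E ^ (j + 1)), ?_, ?_,
    fun a => Iff.rfl, fun a => Iff.rfl⟩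
  · exact Nat.find_min hex (by omega)
  · rw [← hj]; exact Nat.find_spec hex

end Pool.Agent.H603
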