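import Pool.Agent.H979.GW.StmA

set_option autoImplicit false

namespace Pool.Agent.H603

open Pool.Agent.H979.GW

/-- **LEV**: the iterates of `TT` are the sums over the generations; and sums over
generation `j + k` split. -/
theorem gw_lev {Q : Type} [Fintype Q] [DecidableEq Q] : S_LEV Q := by
  have hsh : ∀ (c : Q × ℕ) (v : Vx Q) (ω : Env Q), sh [c] (sh v ω) = sh (c :: v) ω := by
    intro c v ω
    funext u
    show ω ((u ++ [c]) ++ v) = ω (u ++ (c :: v))
    rw [List.append_assoc]
    rfl
  refine ⟨?_, ?_⟩
  · intro f k
    induction k generalizing f with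
    | zero =>
      intro a ω
      rw [sum_Lev_zero]
      have h0 : sh ([] : Vx Q) ω = ω := by
        funext u
        show ω (u ++ []) = ω u
        rw [List.append_nil]
      rw [h0]
      rfl
    | succ k ih =>
      intro a ω
      rw [Function.iterate_succ_apply, ih (TT f) a ω, sum_Lev_succ]
      refine Finset.sum_congr rfl fun v _ => ?_
      show ∑ c ∈ chd (ω v), f c.1 (sh [c] (sh v ω)) = ∑ c ∈ chd (ω v), f c.1 (sh (c :: v) ω)
      refine Finset.sum_congr rfl fun c _ => ?_
      rw [hsh]
  · intro ω j k
    induction k with
    | zero =>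
      intro F
      refine Finset.sum_congr rfl fun u _ => ?_
      rw [sum_Lev_zero]
      rfl
    | succ k ih =>
      intro F
      rw [← add_assoc, sum_Lev_succ, ih]
      refine Finset.sum_congr rfl fun u _ => ?_
      rw [sum_Lev_succ]
      rfl

end Pool.Agent.H603
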