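import Pool.Agent.H979.GW.StmB

set_option autoImplicit false

namespace Pool.Agent.H603

open Pool.Agent.H979.GW

namespace OCC

variable {Λ : Type} [DecidableEq Λ]

/-- the exact reversible measure -/
noncomputable def pi0 (ρ : ℝ) (ch : List Λ → Finset Λ) (v : List Λ) : ℝ :=
  if v = [] then ((ch []).card : ℝ) else (ρ⁻¹) ^ v.length * (ρ + (ch v).card)

noncomputable def EE (ρ : ℝ) (ch : List Λ → Finset Λ) (k : ℕ) (g f : List Λ → ℝ) : ℝ :=
  ∑ v ∈ Lev ch k, (ρ⁻¹) ^ k * (g v * ∑ c ∈ ch v, f (c :: v))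

noncomputable def BB (ρ : ℝ) (ch : List Λ → Finset Λ) (M : ℕ) (g f : List Λ → ℝ) : ℝ :=
  ∑ k ∈ Finset.range M, ∑ v ∈ Lev ch k, pi0 ρ ch v * (g v * f v)

theorem BB_comm (ρ : ℝ) (ch : List Λ → Finset Λ) (M : ℕ) (g f : List Λ → ℝ) :
    BB ρ ch M g f = BB ρ ch M f g := by
  unfold BB
  refine Finset.sum_congr rfl fun k _ => Finset.sum_congr rfl fun v _ => ?_
  rw [mul_comm (g v)]

theorem lev_zero {ρ : ℝ} {ch : List Λ → Finset Λ} (hc : (ch []).card ≠ 0) (g f : List Λ → ℝ) :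
    ∑ v ∈ Lev ch 0, pi0 ρ ch v * (g v * Pop ρ ch f v) = EE ρ ch 0 g f := by
  unfold EE
  rw [sum_Lev_zero, sum_Lev_zero, Pop_nil, pi0, if_pos rfl]
  have : ((ch []).card : ℝ) ≠ 0 := by exact_mod_cast hc
  field_simp

theorem lev_succ {ρ : ℝ} {ch : List Λ → Finset Λ} (hρ : 0 < ρ) (k : ℕ) (g f : List Λ → ℝ) :
    ∑ v ∈ Lev ch (k + 1), pi0 ρ ch v * (g v * Pop ρ ch f v) =
      EE ρ ch (k + 1) g f + EE ρ ch k f g := by
  unfold EE
  rw [sum_Lev_succ, sum_Lev_succ, ← Finset.sum_add_distrib]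
  refine Finset.sum_congr rfl fun u hu => ?_
  rw [Finset.mul_sum, Finset.mul_sum, ← Finset.sum_add_distrib]
  refine Finset.sum_congr rfl fun c hc => ?_
  rw [Pop_cons, pi0, if_neg (List.cons_ne_nil _ _)]
  have hl : u.length = k := (mem_Lev.1 hu).1
  have h0 : ρ + ((ch (c :: u)).card : ℝ) ≠ 0 := by positivity
  rw [List.length_cons, hl]
  have h1 : (ρ⁻¹) ^ (k + 1) * ρ = (ρ⁻¹) ^ k := by
    rw [pow_succ, mul_assoc, inv_mul_cancel₀ hρ.ne', mul_one]
  calc (ρ⁻¹) ^ (k + 1) * (ρ + ((ch (c :: u)).card : ℝ)) *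
        (g (c :: u) * ((ρ * f u + ∑ b ∈ ch (c :: u), f (b :: c :: u)) /
          (ρ + ((ch (c :: u)).card : ℝ))))
      = (ρ⁻¹) ^ (k + 1) * (g (c :: u) * (ρ * f u + ∑ b ∈ ch (c :: u), f (b :: c :: u))) := by
        field_simp
    _ = (ρ⁻¹) ^ (k + 1) * (g (c :: u) * ∑ b ∈ ch (c :: u), f (b :: c :: u)) +
        ((ρ⁻¹) ^ (k + 1) * ρ) * (f u * g (c :: u)) := by ring
    _ = _ := by rw [h1]

theorem BB_pop {ρ : ℝ} {ch : List Λ → Finset Λ} (hρ : 0 < ρ) (hc : (ch []).card ≠ 0) (M : ℕ)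
    (g f : List Λ → ℝ) :
    BB ρ ch (M + 1) g (Pop ρ ch f) =
      ∑ k ∈ Finset.range (M + 1), EE ρ ch k g f + ∑ k ∈ Finset.range M, EE ρ ch k f g := by
  induction M with
  | zero =>
    unfold BB
    simp only [zero_add, Finset.sum_range_one, Finset.range_zero, Finset.sum_empty, add_zero]
    exact lev_zero hc g f
  | succ M ih =>
    have h1 : BB ρ ch (M + 1 + 1) g (Pop ρ ch f) = BB ρ ch (M + 1) g (Pop ρ ch f) +
        (EE ρ ch (M + 1) g f + EE ρ ch M f g) := by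
      unfold BB
      rw [Finset.sum_range_succ _ (M + 1), lev_succ hρ]
    rw [h1, ih, Finset.sum_range_succ _ (M + 1), Finset.sum_range_succ (fun k => EE ρ ch k f g) M]
    ring

theorem EE_left {ρ : ℝ} {ch : List Λ → Finset Λ} {k : ℕ} {g f : List Λ → ℝ}
    (hg : ∀ v, k ≤ v.length → g v = 0) : EE ρ ch k g f = 0 := by
  unfold EE
  refine Finset.sum_eq_zero fun v hv => ?_
  rw [hg v (mem_Lev.1 hv).1.ge]
  ring

theorem EE_right {ρ : ℝ} {ch : List Λ → Finset Λ} {k : ℕ} {g f : List Λ → ℝ}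
    (hg : ∀ v, k ≤ v.length → g v = 0) : EE ρ ch k f g = 0 := by
  unfold EE
  refine Finset.sum_eq_zero fun v hv => ?_
  rw [Finset.sum_eq_zero]
  · ring
  · intro c _
    refine hg _ ?_
    rw [List.length_cons]
    have := (mem_Lev.1 hv).1
    omega

theorem BB_adj {ρ : ℝ} {ch : List Λ → Finset Λ} (hρ : 0 < ρ) (hc : (ch []).card ≠ 0) (M : ℕ)
    {g : List Λ → ℝ} (f : List Λ → ℝ) (hg : ∀ v, M ≤ v.length → g v = 0) :
    BB ρ ch (M + 1) g (Pop ρ ch f) = BB ρ ch (M + 1) (Pop ρ ch g) f := by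
  rw [BB_comm ρ ch (M + 1) (Pop ρ ch g) f, BB_pop hρ hc, BB_pop hρ hc, Finset.sum_range_succ,
    Finset.sum_range_succ, EE_left hg, EE_right hg]
  ring

/-- `p_t = Pop^t 1_[]` -/
noncomputable def pp (ρ : ℝ) (ch : List Λ → Finset Λ) (t : ℕ) : List Λ → ℝ :=
  (Pop ρ ch)^[t] (fun v => if v = [] then (1 : ℝ) else 0)

theorem pp_succ (ρ : ℝ) (ch : List Λ → Finset Λ) (t : ℕ) :
    pp ρ ch (t + 1) = Pop ρ ch (pp ρ ch t) := by
  unfold pp
  rw [Function.iterate_succ_apply']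

theorem pp_supp (ρ : ℝ) (ch : List Λ → Finset Λ) (t : ℕ) :
    ∀ v : List Λ, t < v.length → pp ρ ch t v = 0 := by
  induction t with
  | zero =>
    intro v hv
    unfold pp
    rw [Function.iterate_zero, id_eq, if_neg]
    rintro rfl
    simp at hv
  | succ t ih =>
    intro v hv
    rw [pp_succ]
    cases v with
    | nil => simp at hv
    | cons a v =>
      rw [List.length_cons] at hv
      rw [Pop_cons, ih v (by omega), Finset.sum_eq_zero, mul_zero, add_zero, zero_div]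
      intro b _
      refine ih _ ?_
      rw [List.length_cons, List.length_cons]
      omega

theorem pp_nonneg {ρ : ℝ} (hρ : 0 < ρ) (ch : List Λ → Finset Λ) (t : ℕ) (v : List Λ) :
    0 ≤ pp ρ ch t v := by
  refine Pop_iter_nonneg hρ ch ?_ t v
  intro v
  split_ifs <;> norm_num

theorem Pop_le {ρ : ℝ} (hρ : 0 < ρ) (ch : List Λ → Finset Λ) {f : List Λ → ℝ} {c : ℝ}
    (hc : 0 ≤ c) (hf : ∀ v, f v ≤ c) (v : List Λ) : Pop ρ ch f v ≤ c := by
  cases v with
  | nil =>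
    rw [Pop_nil]
    rcases Nat.eq_zero_or_pos (ch []).card with h | h
    · rw [h]; simpa using hc
    · have h' : (0 : ℝ) < (ch []).card := by exact_mod_cast h
      rw [div_le_iff₀ h']
      refine (Finset.sum_le_card_nsmul _ _ c fun x _ => hf _).trans ?_
      rw [nsmul_eq_mul, mul_comm]
  | cons a v =>
    rw [Pop_cons]
    have h' : (0 : ℝ) < ρ + (ch (a :: v)).card := by positivity
    rw [div_le_iff₀ h']
    have h1 : ∑ b ∈ ch (a :: v), f (b :: a :: v) ≤ (ch (a :: v)).card * c := by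
      refine (Finset.sum_le_card_nsmul _ _ c fun x _ => hf _).trans ?_
      rw [nsmul_eq_mul]
    nlinarith [mul_le_mul_of_nonneg_left (hf v) hρ.le]

theorem pp_le_one {ρ : ℝ} (hρ : 0 < ρ) (ch : List Λ → Finset Λ) (t : ℕ) (v : List Λ) :
    pp ρ ch t v ≤ 1 := by
  induction t generalizing v with
  | zero =>
    unfold pp
    rw [Function.iterate_zero, id_eq]
    split_ifs <;> norm_num
  | succ t ih =>
    rw [pp_succ]
    exact Pop_le hρ ch zero_le_one ih v

theorem Pop_sum (ρ : ℝ) (ch : List Λ → Finset Λ) (n : ℕ) (F : ℕ → List Λ → ℝ) (v : List Λ) :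
    Pop ρ ch (fun v => ∑ t ∈ Finset.range n, F t v) v = ∑ t ∈ Finset.range n, Pop ρ ch (F t) v := by
  cases v with
  | nil =>
    simp only [Pop_nil]
    rw [Finset.sum_comm, Finset.sum_div]
  | cons a v =>
    simp only [Pop_cons]
    rw [Finset.sum_comm, Finset.mul_sum, ← Finset.sum_add_distrib, Finset.sum_div]

/-- `u_n = ∑_{t<n} p_t` -/
noncomputable def uu (ρ : ℝ) (ch : List Λ → Finset Λ) (n : ℕ) (v : List Λ) : ℝ :=
  ∑ t ∈ Finset.range n, pp ρ ch t v

theorem uu_succ (ρ : ℝ) (ch : List Λ → Finset Λ) (n : ℕ) (v : List Λ) :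
    uu ρ ch (n + 1) v = Pop ρ ch (uu ρ ch n) v + if v = [] then 1 else 0 := by
  unfold uu
  rw [Finset.sum_range_succ', Pop_sum]
  simp only [pp_succ]
  rfl

theorem uu_le {ρ : ℝ} (hρ : 0 < ρ) (ch : List Λ → Finset Λ) (n : ℕ) (v : List Λ) :
    uu ρ ch n v ≤ uu ρ ch n [] := by
  induction n generalizing v with
  | zero => unfold uu; simp
  | succ n ih =>
    by_cases hv : v = []
    · rw [hv]
    · rw [uu_succ, if_neg hv, add_zero]
      have h0 : 0 ≤ uu ρ ch n [] := Finset.sum_nonneg fun t _ => pp_nonneg hρ ch t _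
      refine (Pop_le hρ ch h0 ih v).trans ?_
      unfold uu
      exact Finset.sum_le_sum_of_subset_of_nonneg (Finset.range_subset_range.2 (Nat.le_succ n))
        fun t _ _ => pp_nonneg hρ ch t _

theorem BB_iter {ρ : ℝ} {ch : List Λ → Finset Λ} (hρ : 0 < ρ) (hc : (ch []).card ≠ 0) (M : ℕ)
    (f : List Λ → ℝ) (t s : ℕ) (hst : s + t ≤ M) :
    BB ρ ch (M + 1) (pp ρ ch s) ((Pop ρ ch)^[t] f) = BB ρ ch (M + 1) (pp ρ ch (s + t)) f := by
  induction t generalizing s with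
  | zero => rfl
  | succ t ih =>
    rw [Function.iterate_succ_apply', BB_adj hρ hc M _ (fun v hv => pp_supp ρ ch s v (by omega)),
      ← pp_succ, ih (s + 1) (by omega)]
    congr 2
    omega

theorem BB_zero (ρ : ℝ) (ch : List Λ → Finset Λ) (M : ℕ) (f : List Λ → ℝ) :
    BB ρ ch (M + 1) (pp ρ ch 0) f = (ch []).card * f [] := by
  unfold BB
  rw [Finset.sum_range_succ', sum_Lev_zero, Finset.sum_eq_zero, zero_add]
  · have h1 : pp ρ ch 0 ([] : List Λ) = 1 := by
      unfold pp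
      rw [Function.iterate_zero, id_eq, if_pos rfl]
    rw [h1, pi0, if_pos rfl, one_mul]
  · intro k _
    refine Finset.sum_eq_zero fun v hv => ?_
    rw [pp_supp ρ ch 0 v (by have := (mem_Lev.1 hv).1; omega)]
    ring

theorem BB_supp {ρ : ℝ} {ch : List Λ → Finset Λ} {M N : ℕ} (h : N ≤ M) {g : List Λ → ℝ}
    (f : List Λ → ℝ) (hg : ∀ v, N ≤ v.length → g v = 0) :
    BB ρ ch M g f = BB ρ ch N g f := by
  unfold BB
  symm
  refine Finset.sum_subset (Finset.range_subset_range.2 h) fun k _ hk => ?_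
  refine Finset.sum_eq_zero fun v hv => ?_
  rw [hg v (by have := (mem_Lev.1 hv).1; rw [Finset.mem_range] at hk; omega)]
  ring

/-- the basic identity -/
theorem main_id {ρ : ℝ} {ch : List Λ → Finset Λ} (hρ : 0 < ρ) (hc : (ch []).card ≠ 0)
    (f : List Λ → ℝ) (t : ℕ) :
    ((ch []).card : ℝ) * (Pop ρ ch)^[t] f [] = BB ρ ch (t + 1) (pp ρ ch t) f := by
  rw [← BB_zero ρ ch t, BB_iter hρ hc t f t 0 (by omega), Nat.zero_add]

theorem pi0_nonneg {ρ : ℝ} (hρ : 0 < ρ) (ch : List Λ → Finset Λ) (v : List Λ) :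
    0 ≤ pi0 ρ ch v := by
  unfold pi0
  split_ifs <;> positivity

theorem pi0_le {ρ : ℝ} (hρ : 0 < ρ) (ch : List Λ → Finset Λ) {k : ℕ} {v : List Λ}
    (hv : v ∈ Lev ch k) : pi0 ρ ch v ≤ (ρ⁻¹) ^ k * (ρ + (ch v).card) := by
  have hl := (mem_Lev.1 hv).1
  unfold pi0
  split_ifs with h
  · subst h
    have : k = 0 := by simpa using hl.symm
    subst this
    simp only [pow_zero, one_mul]
    linarith
  · rw [hl]

end OCC

open OCC in
/-- **OCC** (occupation times), given `S_GREEN`. -/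
theorem gw_occ (hG : S_GREEN) : S_OCC := by
  intro Λ _ ρ ch W cL σ2 η hR
  have hρ : 0 < ρ := zero_lt_one.trans hR.rho
  obtain ⟨C, hC0, hC⟩ := hG Λ ρ ch W hR.rho hR.W_nonneg hR.W_rec hR.W_root hR.sq
  have hcard : (ch []).card ≠ 0 := by
    intro h0
    have h1 := hR.W_rec [] trivial
    rw [Finset.card_eq_zero.1 h0, Finset.sum_empty] at h1
    have := mul_pos hρ hR.W_root
    linarith
  have hcard1 : (1 : ℝ) ≤ (ch []).card := by exact_mod_cast Nat.one_le_iff_ne_zero.2 hcard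
  refine ⟨C, hC0, fun f hf => ⟨fun n hn => ?_, fun t => ?_⟩⟩
  · have h1 : ∀ t ∈ Finset.range n, (Pop ρ ch)^[t] f [] ≤ BB ρ ch n (pp ρ ch t) f := by
      intro t ht
      rw [Finset.mem_range] at ht
      rw [BB_supp (N := t + 1) (by omega) f (fun v hv => pp_supp ρ ch t v (by omega)),
        ← main_id hρ hcard f t]
      have := Pop_iter_nonneg hρ ch hf t []
      nlinarith
    refine (Finset.sum_le_sum h1).trans ?_
    have h2 : ∑ t ∈ Finset.range n, BB ρ ch n (pp ρ ch t) f =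
        ∑ k ∈ Finset.range n, ∑ v ∈ Lev ch k, pi0 ρ ch v * (uu ρ ch n v * f v) := by
      unfold BB uu
      rw [Finset.sum_comm]
      refine Finset.sum_congr rfl fun k _ => ?_
      rw [Finset.sum_comm]
      refine Finset.sum_congr rfl fun v _ => ?_
      rw [Finset.sum_mul, Finset.mul_sum]
    rw [h2, Finset.mul_sum]
    refine Finset.sum_le_sum fun k _ => ?_
    rw [Finset.mul_sum]
    refine Finset.sum_le_sum fun v hv => ?_
    have h3 : uu ρ ch n v ≤ C * √n := (uu_le hρ ch n v).trans (hC n hn)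
    have h4 : 0 ≤ uu ρ ch n v := Finset.sum_nonneg fun t _ => pp_nonneg hρ ch t _
    have h5 := pi0_le hρ ch hv
    calc pi0 ρ ch v * (uu ρ ch n v * f v)
        ≤ ((ρ⁻¹) ^ k * (ρ + (ch v).card)) * ((C * √n) * f v) := by
          refine mul_le_mul h5 (mul_le_mul_of_nonneg_right h3 (hf v))
            (mul_nonneg h4 (hf v)) (by positivity)
      _ = C * √n * ((ρ⁻¹) ^ k * (ρ + (ch v).card) * f v) := by ring
  · have h1 : (Pop ρ ch)^[t] f [] ≤ BB ρ ch (t + 1) (pp ρ ch t) f := by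
      rw [← main_id hρ hcard f t]
      have := Pop_iter_nonneg hρ ch hf t []
      nlinarith
    refine h1.trans ?_
    unfold BB
    refine Finset.sum_le_sum fun k _ => Finset.sum_le_sum fun v hv => ?_
    refine mul_le_mul (pi0_le hρ ch hv) ?_ (mul_nonneg (pp_nonneg hρ ch t v) (hf v))
      (by positivity)
    have := pp_le_one hρ ch t v
    have := hf v
    nlinarith

end Pool.Agent.H603
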