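import Mathlib
import Pool.Agent.H812.Tm.Spec2

/-!
# Slopes of level functions have bounded angular derivative (part `SSlT` of project TM)
-/

set_option autoImplicit false

open Real Filter Topology
open scoped ContDiff

namespace Pool.Agent.H603.TmSlT

open Pool.Agent.W811.Stu Pool.Agent.H812.Tm

lemma isOpen_U : IsOpen U := by
  have : U = (fun v : ℝ × ℝ => |v.1|) ⁻¹' (Set.Iio 1) := rfl
  rw [this]; exact isOpen_Iio.preimage (by fun_prop)

lemma mem_U {r : ℝ} (hr : r < 1) {v : ℝ × ℝ} (h : |v.1| ≤ r) : v ∈ U := lt_of_le_of_lt h hr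

lemma cda {f : ℝ × ℝ → ℝ} (hf : ContDiffOn ℝ ∞ f U) {v : ℝ × ℝ} (hv : v ∈ U) :
    ContDiffAt ℝ ∞ f v := hf.contDiffAt (isOpen_U.mem_nhds hv)

lemma cda_dt {f : ℝ × ℝ → ℝ} {v : ℝ × ℝ} (hf : ContDiffAt ℝ ∞ f v) : ContDiffAt ℝ ∞ (dt f) v := by
  have h : ContDiffAt ℝ ∞ (fderiv ℝ f) v := hf.fderiv_right (m := ∞) (by simp)
  exact h.clm_apply contDiffAt_const

lemma cda_dz {f : ℝ × ℝ → ℝ} {v : ℝ × ℝ} (hf : ContDiffAt ℝ ∞ f v) : ContDiffAt ℝ ∞ (dz f) v := by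
  have h : ContDiffAt ℝ ∞ (fderiv ℝ f) v := hf.fderiv_right (m := ∞) (by simp)
  exact h.clm_apply contDiffAt_const

lemma cda_sl {f : ℝ × ℝ → ℝ} {v : ℝ × ℝ} (hf : ContDiffAt ℝ ∞ f v) (h0 : dt f v ≠ 0) :
    ContDiffAt ℝ ∞ (sl f) v := by
  have h : ContDiffAt ℝ ∞ (fun w => -dz f w / dt f w) v := (cda_dz hf).neg.div (cda_dt hf) h0
  exact h

lemma diff_sl {f : ℝ × ℝ → ℝ} {v : ℝ × ℝ} (hf : ContDiffAt ℝ ∞ f v) (h0 : dt f v ≠ 0) :
    DifferentiableAt ℝ (sl f) v := (cda_sl hf h0).differentiableAt (by simp)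

lemma dt_sub' {f g : ℝ × ℝ → ℝ} {v : ℝ × ℝ} (hf : DifferentiableAt ℝ f v)
    (hg : DifferentiableAt ℝ g v) : dt (fun w => f w - g w) v = dt f v - dt g v := by
  unfold dt
  have := fderiv_fun_sub hf hg
  rw [this]; rfl

/-! ### periodicity and compactness -/

lemma dt_per {f : ℝ × ℝ → ℝ} {a : ℝ × ℝ} (h : ∀ v, f (v + a) = f v) :
    ∀ v, dt f (v + a) = dt f v := by
  intro v
  unfold dt
  have h1 : (fun w => f (w + a)) = f := funext h
  have h2 := fderiv_comp_add_right (𝕜 := ℝ) (f := f) (x := v) a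
  rw [h1] at h2
  rw [← h2]

lemma dz_per {f : ℝ × ℝ → ℝ} {a : ℝ × ℝ} (h : ∀ v, f (v + a) = f v) :
    ∀ v, dz f (v + a) = dz f v := by
  intro v
  unfold dz
  have h1 : (fun w => f (w + a)) = f := funext h
  have h2 := fderiv_comp_add_right (𝕜 := ℝ) (f := f) (x := v) a
  rw [h1] at h2
  rw [← h2]

lemma sl_per {f : ℝ × ℝ → ℝ} {a : ℝ × ℝ} (h : ∀ v, f (v + a) = f v) :
    ∀ v, sl f (v + a) = sl f v := by
  intro v
  unfold sl
  rw [dt_per h, dz_per h]

/-- on compact sets the angular derivative of the slope is bounded -/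
lemma base {f : ℝ × ℝ → ℝ} {r κ : ℝ} (hr : r < 1) (hf : ContDiffOn ℝ ∞ f U)
    (hper : ∀ z ϑ, f (z, ϑ + 2 * π) = f (z, ϑ))
    (h0 : ∀ v ∈ U, |f v| ≤ κ → dt f v ≠ 0) :
    ∃ B : ℝ, ∀ v : ℝ × ℝ, |v.1| ≤ r → |f v| ≤ κ → |dt (sl f) v| ≤ B := by
  set K : Set (ℝ × ℝ) := (Set.Icc (-r) r ×ˢ Set.Icc 0 (2 * π)) ∩ f ⁻¹' (Set.Icc (-κ) κ) with hK
  have hs : Set.Icc (-r) r ×ˢ Set.Icc 0 (2 * π) ⊆ U := by
    rintro ⟨z, t⟩ ⟨h1, -⟩
    exact mem_U hr (abs_le.2 ⟨h1.1, h1.2⟩)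
  have hcl : IsClosed K :=
    (hf.continuousOn.mono hs).preimage_isClosed_of_isClosed
      (isClosed_Icc.prod isClosed_Icc) isClosed_Icc
  have hcomp : IsCompact K :=
    (isCompact_Icc.prod isCompact_Icc).of_isClosed_subset hcl Set.inter_subset_left
  have hcont : ContinuousOn (dt (sl f)) K := by
    intro v hv
    have hvU : v ∈ U := hs hv.1
    have hfv : |f v| ≤ κ := abs_le.2 ⟨hv.2.1, hv.2.2⟩
    exact (cda_dt (cda_sl (cda hf hvU) (h0 v hvU hfv))).continuousAt.continuousWithinAt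
  obtain ⟨B, hB⟩ := hcomp.exists_bound_of_continuousOn hcont
  refine ⟨B, fun v hv hfv => ?_⟩
  have hp : ∀ w : ℝ × ℝ, f (w + (0, 2 * π)) = f w := by
    rintro ⟨z, t⟩
    have := hper z t
    simpa using this
  have hper2 : Function.Periodic (fun t : ℝ => (f (v.1, t), dt (sl f) (v.1, t))) (2 * π) := by
    intro t
    have h1 := hper v.1 t
    have h2 := dt_per (sl_per hp) (v.1, t)
    have h3 : ((v.1, t) : ℝ × ℝ) + (0, 2 * π) = (v.1, t + 2 * π) := by simp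
    rw [h3] at h2
    simp only [h1, h2]
  obtain ⟨y, hy, hy2⟩ := hper2.exists_mem_Ico₀ (by positivity) v.2
  have e1 : f v = f (v.1, y) := congrArg Prod.fst hy2
  have e2 : dt (sl f) v = dt (sl f) (v.1, y) := congrArg Prod.snd hy2
  have hm : (v.1, y) ∈ K := by
    refine ⟨⟨abs_le.1 hv, ⟨hy.1, hy.2.le⟩⟩, ?_⟩
    show f (v.1, y) ∈ Set.Icc (-κ) κ
    rw [← e1]; exact abs_le.1 hfv
  rw [e2]
  exact hB _ hm

/-! ### the level functions -/

lemma smY (hD : SDt) (δ : ℝ) (d : ℕ → ℕ) (m : ℕ) : ContDiffOn ℝ ∞ (Yf δ d m) U := (hD δ d m).1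

lemma smT (hD : SDt) (δ : ℝ) (d : ℕ → ℕ) (j k : ℕ) : ContDiffOn ℝ ∞ (Tf δ d j k) U := by
  rw [Tf_eq]; exact (hD δ _ _).1

lemma pbY (hLag : SLag) (hSl : SSlope) (hLow : SLow) {δ κ r : ℝ} (hδ : δ ≠ 0) (hκ : 1 < κ)
    (hκc : κ < cc δ) (hr : r < 1) : ∃ L : ℝ, 0 ≤ L ∧ ∀ d : ℕ → ℕ, (∀ k, 1 ≤ d k) → ∀ m, 2 ≤ m →
      ∀ v : ℝ × ℝ, |v.1| ≤ r → |Yf δ d m v| ≤ κ → PB L (Yf δ d m) v := by
  obtain ⟨C, hC, hC2⟩ := hSl δ r hδ hr
  obtain ⟨c0, hc0, hc02⟩ := hLow δ κ hδ (by linarith) hκc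
  have hcp : 0 < cc δ - κ := by linarith
  refine ⟨max C (1 / (cc δ - κ)), le_trans hC.le (le_max_left _ _), ?_⟩
  intro d hd m hm v hv hf
  have hvU : v ∈ U := mem_U hr hv
  have hlow := hc02 d hd m hm v hvU hf
  have hpos : 0 < |dt (Yf δ d m) v| := lt_of_lt_of_le (by positivity) hlow
  refine ⟨abs_pos.1 hpos, ?_, ?_⟩
  · calc |dz (Yf δ d m) v| ≤ C * |dt (Yf δ d m) v| := hC2 d hd m hm v hv (by linarith)
      _ ≤ _ := by gcongr; exact le_max_left _ _
  · have h1 := hLag δ hδ d hd m hm v hvU (by linarith)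
    have h2 : |dt (dt (Yf δ d m)) v| * (cc δ - κ) ≤ (dt (Yf δ d m) v) ^ 2 := by
      refine le_trans ?_ h1
      gcongr
    calc |dt (dt (Yf δ d m)) v| ≤ 1 / (cc δ - κ) * (dt (Yf δ d m) v) ^ 2 := by
          rw [one_div, inv_mul_eq_div, le_div_iff₀ hcp]; exact h2
      _ ≤ _ := by gcongr; exact le_max_right _ _

/-- the main estimate: the slope of `T_{j+1,k}` compared with the slope of `Y_{j+1}` or `Y_j` -/
lemma key (hP : SPair) (hLag : SLag) (hSl : SSlope) (hLow : SLow) (hRun : SRun) (hBr : SBr)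
    (hAl : SAl) (hWin : SWin) (hD : SDt) (hCo : SCoord) {δ κ r : ℝ} (hδ : δ ≠ 0) (hκ : 1 < κ)
    (hκc : κ < cc δ) (hr : r < 1) : ∃ E : ℝ, 0 < E ∧ ∀ d : ℕ → ℕ, (∀ k, 1 ≤ d k) → ∀ j, 2 ≤ j →
      ∀ k, 1 ≤ k → ∀ v : ℝ × ℝ, |v.1| ≤ r → |Tf δ d (j + 1) k v| ≤ κ →
      (|Yf δ d (j + 1) v| ≤ κ ∧ |dt (sl (Tf δ d (j + 1) k)) v - dt (sl (Yf δ d (j + 1))) v| ≤
        E * (1 / 2) ^ ((j + 1) / 2)) ∨
      (|Yf δ d j v| ≤ κ ∧ |dt (sl (Tf δ d (j + 1) k)) v - dt (sl (Yf δ d j)) v| ≤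
        E * (1 / 2) ^ (j / 2)) := by
  obtain ⟨L, hL, hPB⟩ := pbY hLag hSl hLow hδ hκ hκc hr
  obtain ⟨C, hC, hCP⟩ := hP δ κ r L hδ hκ.le hκc hr hL
  obtain ⟨c0, hc0, hc02⟩ := hLow δ κ hδ (by linarith) hκc
  obtain ⟨c1, hc1, hc12⟩ := hRun δ κ hδ hκ hκc
  obtain ⟨K, hK⟩ := hWin δ κ hδ hκ.le hκc
  set c := min c0 c1 with hcdef
  have hc : 0 < c := lt_min hc0 hc1
  have hcc0 : c ≤ c0 := min_le_left _ _
  have hcc1 : c ≤ c1 := min_le_right _ _
  have hx0 : 0 < κ⁻¹ := by positivity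
  have hx1 : κ⁻¹ < 1 := inv_lt_one_of_one_lt₀ hκ
  have hx2 : 0 < 1 - κ⁻¹ := by linarith
  refine ⟨(2 * C / c) / (1 - κ⁻¹), by positivity, ?_⟩
  intro d hd j hj k hk v hv hT
  have hvU : v ∈ U := mem_U hr hv
  have hd' := update_ge hd (j + 1) hk
  have pT : ∀ i, 1 ≤ i → |Tf δ d (j + 1) i v| ≤ κ → PB L (Tf δ d (j + 1) i) v := by
    intro i hi hTi
    rw [Tf_eq] at hTi ⊢
    exact hPB _ (update_ge hd (j + 1) hi) (j + 2) (by omega) v hv hTi
  by_cases h1 : |Yf δ d (j + 1) v| ≤ κ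
  · left
    refine ⟨h1, ?_⟩
    have pf := hPB d hd (j + 1) (by omega) v hv h1
    have pg := pT k hk hT
    have h2 := (hCP (Yf δ d (j + 1)) (Tf δ d (j + 1) k) (smY hD _ _ _) (smT hD _ _ _ _)
      (fun w hw => (hBr δ d (j + 1) k w hw).1) v hv h1 hT pf pg).2.1
    rw [dt_sub' (diff_sl (cda (smT hD _ _ _ _) hvU) pg.ne)
      (diff_sl (cda (smY hD _ _ _) hvU) pf.ne)] at h2
    have lf := hc02 d hd (j + 1) (by omega) v hvU h1
    have lg : c0 * 2 ^ ((j + 2) / 2) ≤ |dt (Tf δ d (j + 1) k) v| := by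
      have hT' := hT
      rw [Tf_eq] at hT' ⊢
      exact hc02 _ hd' (j + 2) (by omega) v hvU hT'
    have lg' : c0 * 2 ^ ((j + 1) / 2) ≤ |dt (Tf δ d (j + 1) k) v| := by
      refine le_trans ?_ lg
      gcongr
      · norm_num
      · omega
    have hb : (0:ℝ) < c0 * 2 ^ ((j + 1) / 2) := by positivity
    have hlf : 1 / |dt (Yf δ d (j + 1)) v| ≤ 1 / (c0 * 2 ^ ((j + 1) / 2)) :=
      one_div_le_one_div_of_le hb lf
    have hlg : 1 / |dt (Tf δ d (j + 1) k) v| ≤ 1 / (c0 * 2 ^ ((j + 1) / 2)) :=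
      one_div_le_one_div_of_le hb lg'
    have hcb : 1 / (c0 * 2 ^ ((j + 1) / 2)) ≤ 1 / c * (1 / 2) ^ ((j + 1) / 2) := by
      rw [one_div_pow, ← one_div_mul_one_div]
      gcongr
    calc _ ≤ C * (1 / |dt (Yf δ d (j + 1)) v| + 1 / |dt (Tf δ d (j + 1) k) v|) := h2
      _ ≤ C * (1 / c * (1 / 2) ^ ((j + 1) / 2) + 1 / c * (1 / 2) ^ ((j + 1) / 2)) := by
        gcongr
        · exact hlf.trans hcb
        · exact hlg.trans hcb
      _ = (2 * C / c) / 1 * (1 / 2) ^ ((j + 1) / 2) := by ring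
      _ ≤ (2 * C / c) / (1 - κ⁻¹) * (1 / 2) ^ ((j + 1) / 2) := by
        gcongr
        linarith
  · right
    push Not at h1
    have hcong : ∀ i, i ≤ j + 1 → orb (Function.update d (j + 1) k) (ze δ v) i = orb d (ze δ v) i := by
      intro i hi
      exact orb_congr _ (fun l hl => Function.update_of_ne (by omega) _ _)
    have hz : |(ze δ v).z| ≤ κ := by
      show |v.1| ≤ κ
      linarith
    have hM : |(orb (Function.update d (j + 1) k) (ze δ v) (j + 2)).y| ≤ κ := by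
      have := hT
      rw [Tf_eq] at this
      exact this
    have hYj : |Yf δ d j v| ≤ κ := by
      rcases hAl κ hκ.le _ hd' (ze δ v) hz (j + 2) hM j (by omega) with h | h
      · rw [hcong j (by omega)] at h; exact h
      · rw [hcong (j + 1) le_rfl] at h
        exact absurd h (not_le.2 h1)
    have hon : OnS δ (orb d (ze δ v) (j + 1)) := ((hCo δ).1 v hvU).orb d (j + 1)
    have hwin : ∀ i, i ≤ k → |Tf δ d (j + 1) i v| ≤ κ := by
      have := (hK (orb d (ze δ v) (j + 1)) 0 k hon (lt_trans hκ h1) (Nat.zero_le _)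
        (by
          show |(orb d (ze δ v) (j + 1)).z| ≤ κ
          rw [orb_succ_z]; exact hYj) hT).1
      intro i hi
      exact this i (Nat.zero_le _) hi
    have hT0 : Tf δ d (j + 1) 0 = Yf δ d j := Tf_zero δ d j
    have pTi : ∀ i, i ≤ k → PB L (Tf δ d (j + 1) i) v := by
      intro i hi
      rcases Nat.eq_zero_or_pos i with rfl | hi0
      · rw [hT0]; exact hPB d hd j hj v hv hYj
      · exact pT i hi0 (hwin i hi)
    have low : ∀ i, i ≤ k → c * κ ^ i * 2 ^ (j / 2) ≤ |dt (Tf δ d (j + 1) i) v| := by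
      intro i hi
      rcases Nat.eq_zero_or_pos i with rfl | hi0
      · rw [hT0]
        have := hc02 d hd j hj v hvU hYj
        refine le_trans ?_ this
        rw [pow_zero, mul_one]
        gcongr
      · have := hc12 d hd (j + 1) i (by omega) hi0 v hvU h1.le (hwin i hi)
        refine le_trans ?_ this
        gcongr
        · norm_num
        · omega
    refine ⟨hYj, ?_⟩
    have hM0 : (0:ℝ) ≤ (2 * C / c) / (1 - κ⁻¹) * (1 / 2) ^ (j / 2) := by positivity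
    have ind : ∀ i, i ≤ k → |dt (sl (Tf δ d (j + 1) i)) v - dt (sl (Tf δ d (j + 1) 0)) v| ≤
        (2 * C / c) / (1 - κ⁻¹) * (1 / 2) ^ (j / 2) * (1 - κ⁻¹ ^ i) := by
      intro i
      induction i with
      | zero => intro _; simp
      | succ i ih =>
        intro hi
        have ih' := ih (by omega)
        have pf := pTi i (by omega)
        have pg := pTi (i + 1) hi
        have h2 := (hCP (Tf δ d (j + 1) i) (Tf δ d (j + 1) (i + 1)) (smT hD _ _ _ _)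
          (smT hD _ _ _ _) (fun w hw => (hBr δ d (j + 1) i w hw).2) v hv (hwin i (by omega))
          (hwin (i + 1) hi) pf pg).2.1
        rw [dt_sub' (diff_sl (cda (smT hD _ _ _ _) hvU) pg.ne)
          (diff_sl (cda (smT hD _ _ _ _) hvU) pf.ne)] at h2
        have lf := low i (by omega)
        have lg := low (i + 1) hi
        have lg' : c * κ ^ i * 2 ^ (j / 2) ≤ |dt (Tf δ d (j + 1) (i + 1)) v| := by
          refine le_trans ?_ lg
          gcongr
          · exact hκ.le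
          · omega
        have hb : (0:ℝ) < c * κ ^ i * 2 ^ (j / 2) := by positivity
        have hlf := one_div_le_one_div_of_le hb lf
        have hlg := one_div_le_one_div_of_le hb lg'
        have heq : 1 / (c * κ ^ i * 2 ^ (j / 2)) = 1 / c * κ⁻¹ ^ i * (1 / 2) ^ (j / 2) := by
          rw [one_div_pow, inv_pow]
          field_simp
        rw [heq] at hlf hlg
        have h3 : |dt (sl (Tf δ d (j + 1) (i + 1))) v - dt (sl (Tf δ d (j + 1) i)) v| ≤
            (2 * C / c) * (1 / 2) ^ (j / 2) * κ⁻¹ ^ i := by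
          calc _ ≤ C * (1 / |dt (Tf δ d (j + 1) i) v| + 1 / |dt (Tf δ d (j + 1) (i + 1)) v|) := h2
            _ ≤ C * (1 / c * κ⁻¹ ^ i * (1 / 2) ^ (j / 2) + 1 / c * κ⁻¹ ^ i * (1 / 2) ^ (j / 2)) := by
              gcongr
            _ = _ := by ring
        have h4 : (2 * C / c) * (1 / 2) ^ (j / 2) * κ⁻¹ ^ i =
            (2 * C / c) / (1 - κ⁻¹) * (1 / 2) ^ (j / 2) * (1 - κ⁻¹ ^ (i + 1)) -
            (2 * C / c) / (1 - κ⁻¹) * (1 / 2) ^ (j / 2) * (1 - κ⁻¹ ^ i) := by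
          have aux : ∀ x M N : ℝ, 1 - x ≠ 0 → M * N * x ^ i =
              M / (1 - x) * N * (1 - x ^ (i + 1)) - M / (1 - x) * N * (1 - x ^ i) := by
            intro x M N hx
            rw [pow_succ]
            field_simp
            ring
          exact aux κ⁻¹ _ _ hx2.ne'
        calc _ = |(dt (sl (Tf δ d (j + 1) (i + 1))) v - dt (sl (Tf δ d (j + 1) i)) v) +
              (dt (sl (Tf δ d (j + 1) i)) v - dt (sl (Tf δ d (j + 1) 0)) v)| := by
              congr 1; ring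
          _ ≤ _ := abs_add_le _ _
          _ ≤ _ := by linarith
    have := ind k le_rfl
    rw [hT0] at this
    refine this.trans ?_
    have hk1 : 1 - κ⁻¹ ^ k ≤ 1 := by
      have : (0:ℝ) ≤ κ⁻¹ ^ k := by positivity
      linarith
    calc _ ≤ (2 * C / c) / (1 - κ⁻¹) * (1 / 2) ^ (j / 2) * 1 :=
          mul_le_mul_of_nonneg_left hk1 hM0
      _ = _ := by ring

/-- **Part `SSlT`**. -/
theorem tSSlT (hP : SPair) (hLag : SLag) (hSl : SSlope) (hLow : SLow) (hRun : SRun) (hBr : SBr)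
    (hAl : SAl) (hWin : SWin) (hD : SDt) (hCo : SCoord) : SSlT := by
  intro δ κ r d hδ hκ hκc hr hd
  obtain ⟨E, hE, hkey⟩ := key hP hLag hSl hLow hRun hBr hAl hWin hD hCo hδ hκ hκc hr
  obtain ⟨c0, hc0, hc02⟩ := hLow δ κ hδ (by linarith) hκc
  have hne : ∀ m, 2 ≤ m → ∀ v ∈ U, |Yf δ d m v| ≤ κ → dt (Yf δ d m) v ≠ 0 := by
    intro m hm v hv hf
    have := hc02 d hd m hm v hv hf
    exact abs_pos.1 (lt_of_lt_of_le (by positivity) this)
  obtain ⟨B2, hB2⟩ := base hr (smY hD δ d 2) (hD δ d 2).2.1 (hne 2 le_rfl)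
  obtain ⟨B3, hB3⟩ := base hr (smY hD δ d 3) (hD δ d 3).2.1 (hne 3 (by norm_num))
  set B0 := max (max B2 B3) 0 with hB0
  have hB00 : 0 ≤ B0 := le_max_right _ _
  set bd : ℕ → ℝ := fun j => B0 + E * (4 - 2 * (1 / 2) ^ (j / 2) - 2 * (1 / 2) ^ ((j + 1) / 2))
    with hbd
  have hstep : ∀ j, bd (j + 1) = bd j + E * (1 / 2) ^ (j / 2) := by
    intro j
    have : (j + 1 + 1) / 2 = j / 2 + 1 := by omega
    simp only [hbd, this, pow_succ]
    ring
  have hmono : ∀ j, bd j ≤ bd (j + 1) := by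
    intro j; rw [hstep]
    have : 0 ≤ E * (1 / 2 : ℝ) ^ (j / 2) := by positivity
    linarith
  have hbd0 : ∀ j, B0 ≤ bd j := by
    intro j
    induction j with
    | zero => simp [hbd]; norm_num
    | succ j ih => exact ih.trans (hmono j)
  have hbd1 : ∀ j, bd j ≤ B0 + 4 * E := by
    intro j
    have h1 : (0:ℝ) ≤ (1 / 2) ^ (j / 2) := by positivity
    have h2 : (0:ℝ) ≤ (1 / 2) ^ ((j + 1) / 2) := by positivity
    simp only [hbd]
    nlinarith
  have hY : ∀ j, 2 ≤ j → ∀ v : ℝ × ℝ, |v.1| ≤ r → |Yf δ d j v| ≤ κ →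
      |dt (sl (Yf δ d j)) v| ≤ bd j := by
    intro j
    induction j using Nat.strong_induction_on with
    | _ j ih =>
      intro hj v hv hf
      rcases Nat.lt_or_ge j 4 with h4 | h4
      · have h23 : j = 2 ∨ j = 3 := by omega
        rcases h23 with rfl | rfl
        · exact (hB2 v hv hf).trans (((le_max_left _ _).trans (le_max_left _ _)).trans (hbd0 2))
        · exact (hB3 v hv hf).trans (((le_max_right _ _).trans (le_max_left _ _)).trans (hbd0 3))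
      · obtain ⟨i, rfl⟩ : ∃ i, j = i + 2 := ⟨j - 2, by omega⟩
        have hTe : Tf δ d (i + 1) (d (i + 1)) = Yf δ d (i + 2) := Tf_last δ d (i + 1)
        have hf' : |Tf δ d (i + 1) (d (i + 1)) v| ≤ κ := by rw [hTe]; exact hf
        have hk := hkey d hd i (by omega) (d (i + 1)) (hd _) v hv hf'
        rw [hTe] at hk
        rcases hk with ⟨h1, h2⟩ | ⟨h1, h2⟩
        · have h3 := ih (i + 1) (by omega) (by omega) v hv h1
          have h5 := hstep (i + 1)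
          have h6 := abs_sub_abs_le_abs_sub (dt (sl (Yf δ d (i + 2))) v)
            (dt (sl (Yf δ d (i + 1))) v)
          linarith
        · have h3 := ih i (by omega) (by omega) v hv h1
          have h5 := hstep i
          have h7 := hmono (i + 1)
          have h6 := abs_sub_abs_le_abs_sub (dt (sl (Yf δ d (i + 2))) v)
            (dt (sl (Yf δ d i)) v)
          linarith
  refine ⟨B0 + 6 * E, by positivity, ?_, ?_⟩
  · intro j hj v hv hf
    refine (hY j hj v hv hf).trans ((hbd1 j).trans ?_)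
    linarith
  · intro j k hj _ v hv hf
    obtain ⟨i, rfl⟩ : ∃ i, j = i + 1 := ⟨j - 1, by omega⟩
    rcases Nat.eq_zero_or_pos k with rfl | hk
    · rw [Tf_zero] at hf ⊢
      refine (hY i (by omega) v hv hf).trans ((hbd1 i).trans ?_)
      linarith
    · have hp : ∀ n : ℕ, (1 / 2 : ℝ) ^ n ≤ 1 := fun n => pow_le_one₀ (by norm_num) (by norm_num)
      rcases hkey d hd i (by omega) k hk v hv hf with ⟨h1, h2⟩ | ⟨h1, h2⟩
      · have h3 := hY (i + 1) (by omega) v hv h1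
        have h5 := hbd1 (i + 1)
        have h6 := abs_sub_abs_le_abs_sub (dt (sl (Tf δ d (i + 1) k)) v)
          (dt (sl (Yf δ d (i + 1))) v)
        have h7 : E * (1 / 2 : ℝ) ^ ((i + 1) / 2) ≤ E * 1 := by gcongr; exact hp _
        linarith
      · have h3 := hY i (by omega) v hv h1
        have h5 := hbd1 i
        have h6 := abs_sub_abs_le_abs_sub (dt (sl (Tf δ d (i + 1) k)) v)
          (dt (sl (Yf δ d i)) v)
        have h7 : E * (1 / 2 : ℝ) ^ (i / 2) ≤ E * 1 := by gcongr; exact hp _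
        linarith

end Pool.Agent.H603.TmSlT
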